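import Mathlib
import Pool.Agent.HpBall.Final3
import Pool.Agent.HpBall2.Bands
import Pool.Agent.HpBall2.HcProps

set_option autoImplicit false

open MeasureTheory Complex
open scoped ENNReal NNReal

namespace Pool.Agent.H155R3.HB

open Pool.Agent.HpBall Pool.Agent.HpBall2

/-- the embedding of the plane -/
noncomputable def emb (w : ℂ) : E 1 := EuclideanSpace.single 0 w

lemma emb_norm (w : ℂ) : ‖emb w‖ = ‖w‖ := by
  unfold emb
  simp

lemma emb_zero_apply (w : ℂ) : emb w 0 = w := by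
  unfold emb
  simp

lemma eq_emb (z : E 1) : z = emb (z 0) := by
  ext i
  rw [Subsingleton.elim i 0, emb_zero_apply]

lemma norm_apply_zero (z : E 1) : ‖z 0‖ = ‖z‖ := by
  conv_rhs => rw [eq_emb z]
  rw [emb_norm]

lemma inner_E1 (x y : E 1) : (inner ℂ x y : ℂ) = (starRingEnd ℂ) (x 0) * y 0 := by
  rw [PiLp.inner_apply]
  simp [mul_comm]

lemma rho_E1 (x y : E 1) : rho x y = ‖1 - (starRingEnd ℂ) (x 0) * y 0‖ := by
  unfold rho
  rw [inner_E1]

/-- integrals over the sphere of the one dimensional space -/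
lemma circ (G : ℂ → ℂ) (hG : DifferentiableOn ℂ G (Metric.ball 0 1)) (p : ℝ) (hp : 0 < p) (r : ℝ)
    (hr0 : 0 ≤ r) (hr1 : r < 1) :
    ENNReal.ofReal (2 * Real.pi) * ∫⁻ ξ, ENNReal.ofReal (‖G ((r : ℂ) * ξ 0)‖ ^ p) ∂(sig 1) =
      sig 1 Set.univ * ENNReal.ofReal (∫ θ in (0 : ℝ)..2 * Real.pi,
        ‖G ((r : ℂ) * Complex.exp ((θ : ℂ) * I))‖ ^ p) := by
  classical
  set G1 : ℂ → ℂ := (Metric.ball (0 : ℂ) 1).indicator G with hG1
  have hG1m : Measurable G1 := by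
    have h := hG.continuousOn.measurable_piecewise (g := (0 : ℂ → ℂ)) continuousOn_const
      Metric.isOpen_ball.measurableSet
    rw [Set.piecewise_eq_indicator] at h
    exact h
  have hG1e : ∀ w : ℂ, ‖w‖ = 1 → G1 ((r : ℂ) * w) = G ((r : ℂ) * w) := by
    intro w hw
    rw [hG1, Set.indicator_of_mem]
    rw [mem_ball_zero_iff, norm_mul, hw, mul_one, Complex.norm_real, Real.norm_of_nonneg hr0]
    exact hr1
  have e1 : ∫⁻ ξ, ENNReal.ofReal (‖G ((r : ℂ) * ξ 0)‖ ^ p) ∂(sig 1) =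
      ∫⁻ ξ : E 1, ENNReal.ofReal (‖G1 ((r : ℂ) * ξ 0)‖ ^ p) ∂(sig 1) := by
    apply lintegral_congr_ae
    filter_upwards [sig_ae_norm le_rfl] with ξ hξ
    rw [hG1e _ ((norm_apply_zero ξ).trans hξ)]
  have hm : Measurable (fun ξ : E 1 => ENNReal.ofReal (‖G1 ((r : ℂ) * ξ 0)‖ ^ p)) := by
    have : Measurable (fun ξ : E 1 => G1 ((r : ℂ) * ξ 0)) := by
      apply hG1m.comp
      fun_prop
    fun_prop
  rw [e1, sig_average 1 _ hm]
  set h : ℝ → ℝ := fun t => ‖G ((r : ℂ) * Complex.exp ((t : ℂ) * I))‖ ^ p with hh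
  have hper : Function.Periodic h (2 * Real.pi) := by
    intro t
    simp only [hh]
    congr 4
    rw [show (((t + 2 * Real.pi : ℝ) : ℂ)) * I = (t : ℂ) * I + 2 * Real.pi * I by push_cast; ring]
    exact Complex.exp_periodic _
  have hcont : Continuous h := by
    apply Continuous.rpow_const
    · apply Continuous.norm
      exact hG.continuousOn.comp_continuous (f := fun θ : ℝ => (r : ℂ) * Complex.exp ((θ : ℂ) * I))
        (by fun_prop) (fun θ => by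
          rw [mem_ball_zero_iff, norm_mul, Complex.norm_exp_ofReal_mul_I, mul_one,
            Complex.norm_real, Real.norm_of_nonneg hr0]
          exact hr1)
    · intro θ; right; exact hp.le
  have e2 : ∀ᵐ ξ ∂(sig 1), (∫⁻ t in Set.Ioc (0:ℝ) (2 * Real.pi),
      ENNReal.ofReal (‖G1 ((r : ℂ) * (Complex.exp (t * I) • ξ) 0)‖ ^ p) ∂volume) =
      ENNReal.ofReal (∫ θ in (0 : ℝ)..2 * Real.pi, h θ) := by
    filter_upwards [sig_ae_norm le_rfl] with ξ hξ
    have hξ0 : ‖ξ 0‖ = 1 := (norm_apply_zero ξ).trans hξ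
    obtain ⟨φ, hφ⟩ : ∃ φ : ℝ, ξ 0 = Complex.exp ((φ : ℂ) * I) := by
      refine ⟨(ξ 0).arg, ?_⟩
      have := Complex.norm_mul_exp_arg_mul_I (ξ 0)
      rw [hξ0] at this
      simpa using this.symm
    have e3 : ∀ t : ℝ, ENNReal.ofReal (‖G1 ((r : ℂ) * (Complex.exp (t * I) • ξ) 0)‖ ^ p) =
        ENNReal.ofReal (h (t + φ)) := by
      intro t
      have e4 : (Complex.exp (t * I) • ξ) 0 = Complex.exp (((t + φ : ℝ) : ℂ) * I) := by
        rw [PiLp.smul_apply, hφ, smul_eq_mul, ← Complex.exp_add]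
        congr 1
        push_cast
        ring
      rw [e4, hG1e _ (Complex.norm_exp_ofReal_mul_I _)]
    simp_rw [e3]
    have hpi : (0:ℝ) ≤ 2 * Real.pi := by positivity
    rw [lintegral_Ioc_eq (fun t => h (t + φ)) 0 (2 * Real.pi) hpi (by fun_prop)
      (fun t => by simp only [hh]; positivity)]
    congr 1
    rw [intervalIntegral.integral_comp_add_right]
    have := hper.intervalIntegral_add_eq φ 0
    rw [zero_add] at this
    rw [zero_add, add_comm (2 * Real.pi) φ]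
    exact this
  rw [lintegral_congr_ae e2, lintegral_const, mul_comm]

/-- comparison of the two means on the disc -/
lemma circ_le (G : ℂ → ℂ) (hG : DifferentiableOn ℂ G (Metric.ball 0 1)) (p : ℝ) (hp : 0 < p) :
    ∀ M : ℝ, (∀ r : ℝ, 0 ≤ r → r < 1 →
      ∫ θ in (0:ℝ)..2 * Real.pi, ‖G ((r : ℂ) * Complex.exp ((θ : ℂ) * I))‖ ^ p ≤ M) →
      ∀ r : ℝ, 0 ≤ r → r < 1 → ∫⁻ ξ, ENNReal.ofReal (‖G (((r : ℂ) • ξ) 0)‖ ^ p) ∂(sig 1) ≤
        ENNReal.ofReal ((sig 1 Set.univ).toReal / (2 * Real.pi) * M) := by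
  intro M hM r hr0 hr1
  have h1 := circ G hG p hp r hr0 hr1
  have hpi : 0 < 2 * Real.pi := by positivity
  have h2 : ENNReal.ofReal (2 * Real.pi) ≠ 0 := by
    rw [Ne, ENNReal.ofReal_eq_zero, not_le]; exact hpi
  have hs : sig 1 Set.univ = ENNReal.ofReal (sig 1 Set.univ).toReal :=
    (ENNReal.ofReal_toReal (measure_ne_top _ _)).symm
  have e : ∀ ξ : E 1, ((r : ℂ) • ξ) 0 = (r : ℂ) * ξ 0 := fun ξ => rfl
  simp_rw [e]
  rw [← ENNReal.mul_le_mul_iff_right h2 ENNReal.ofReal_ne_top, h1, hs,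
    ← ENNReal.ofReal_mul ENNReal.toReal_nonneg, ← ENNReal.ofReal_mul hpi.le]
  apply ENNReal.ofReal_le_ofReal
  rw [ENNReal.toReal_ofReal ENNReal.toReal_nonneg]
  have h3 := hM r hr0 hr1
  have h4 : 0 ≤ (sig 1 Set.univ).toReal := ENNReal.toReal_nonneg
  calc (sig 1 Set.univ).toReal * _ ≤ (sig 1 Set.univ).toReal * M := by gcongr
    _ = _ := by field_simp

lemma le_circ (G : ℂ → ℂ) (hG : DifferentiableOn ℂ G (Metric.ball 0 1)) (p : ℝ) (hp : 0 < p)
    (M : ℝ) (hM0 : 0 ≤ M) (r : ℝ) (hr0 : 0 ≤ r) (hr1 : r < 1)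
    (h : ∫⁻ ξ, ENNReal.ofReal (‖G (((r : ℂ) • ξ) 0)‖ ^ p) ∂(sig 1) ≤ ENNReal.ofReal M) :
    ∫ θ in (0:ℝ)..2 * Real.pi, ‖G ((r : ℂ) * Complex.exp ((θ : ℂ) * I))‖ ^ p ≤
      (2 * Real.pi) / (sig 1 Set.univ).toReal * M := by
  have h1 := circ G hG p hp r hr0 hr1
  have hpi : 0 < 2 * Real.pi := by positivity
  have hs : sig 1 Set.univ = ENNReal.ofReal (sig 1 Set.univ).toReal :=
    (ENNReal.ofReal_toReal (measure_ne_top _ _)).symm
  have hs0 : 0 < (sig 1 Set.univ).toReal :=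
    ENNReal.toReal_pos sig_univ_pos.ne' (measure_ne_top _ _)
  have e : ∀ ξ : E 1, ((r : ℂ) • ξ) 0 = (r : ℂ) * ξ 0 := fun ξ => rfl
  simp_rw [e] at h
  have h2 : ENNReal.ofReal ((sig 1 Set.univ).toReal * (∫ θ in (0 : ℝ)..2 * Real.pi,
        ‖G ((r : ℂ) * Complex.exp ((θ : ℂ) * I))‖ ^ p)) ≤ ENNReal.ofReal (2 * Real.pi * M) := by
    rw [ENNReal.ofReal_mul hs0.le, ← hs, ← h1, ENNReal.ofReal_mul hpi.le]
    gcongr
  rw [ENNReal.ofReal_le_ofReal_iff (by positivity)] at h2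
  rw [div_mul_eq_mul_div, le_div_iff₀ hs0, mul_comm]
  exact h2

end Pool.Agent.H155R3.HB
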