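import Mathlib
import Pool.Agent.H155R3.HB.Circ

set_option autoImplicit false

open MeasureTheory Complex
open scoped ENNReal NNReal

namespace Pool.Agent.H155R3.HB

open Pool.Agent.HpBall Pool.Agent.HpBall2

lemma om_conj_mul (l i : ℕ) : (starRingEnd ℂ) (om l i) * om l i = 1 := by
  rw [mul_comm, Complex.mul_conj, Complex.normSq_eq_norm_sq, om_norm]
  norm_num

lemma rho_om (l i m j : ℕ) : rho (emb (om l i)) (emb (om m j)) = ‖om l i - om m j‖ := by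
  rw [rho_E1, emb_zero_apply, emb_zero_apply]
  have h := om_conj_mul l i
  calc ‖1 - (starRingEnd ℂ) (om l i) * om m j‖
      = ‖om l i‖ * ‖1 - (starRingEnd ℂ) (om l i) * om m j‖ := by rw [om_norm, one_mul]
    _ = ‖om l i * (1 - (starRingEnd ℂ) (om l i) * om m j)‖ := (norm_mul _ _).symm
    _ = ‖om l i - om m j‖ := by
        congr 1
        linear_combination (-(om m j)) * h

lemma norm_exp_sub (α β : ℝ) : ‖Complex.exp ((α : ℂ) * I) - Complex.exp ((β : ℂ) * I)‖ =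
    2 * |Real.sin ((α - β) / 2)| := by
  have h := Complex.norm_exp_I_mul_ofReal_sub_one (α - β)
  have e : Complex.exp ((α : ℂ) * I) - Complex.exp ((β : ℂ) * I) =
      Complex.exp ((β : ℂ) * I) * (Complex.exp (I * ((α - β : ℝ) : ℂ)) - 1) := by
    rw [mul_sub, ← Complex.exp_add, mul_one]
    congr 2
    push_cast
    ring
  rw [e, norm_mul, Complex.norm_exp_ofReal_mul_I, one_mul, h, norm_mul]
  simp

lemma om_eq (l i : ℕ) : om l i = Complex.exp (((2 * Real.pi * i / 2 ^ l : ℝ) : ℂ) * I) := by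
  unfold om
  congr 1
  push_cast
  ring

lemma sin_lower (N d : ℕ) (h1 : 1 ≤ d) (h2 : d < N) :
    2 / (N : ℝ) ≤ Real.sin (Real.pi * d / N) := by
  have hN : (0 : ℝ) < N := by exact_mod_cast (show 0 < N by omega)
  have hpi := Real.pi_pos
  have hd1 : (1 : ℝ) ≤ d := by exact_mod_cast h1
  have hdN : (d : ℝ) + 1 ≤ N := by exact_mod_cast h2
  rcases le_total ((2 : ℝ) * d) N with h | h
  · have h3 := Real.mul_le_sin (x := Real.pi * d / N) (by positivity) (by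
      rw [div_le_div_iff₀ hN two_pos]
      nlinarith)
    refine le_trans ?_ h3
    rw [show 2 / Real.pi * (Real.pi * d / N) = 2 * d / N by field_simp]
    gcongr
    linarith
  · have e : Real.sin (Real.pi * d / N) = Real.sin (Real.pi * ((N : ℝ) - d) / N) := by
      rw [← Real.sin_pi_sub]
      congr 1
      field_simp
    rw [e]
    have h3 := Real.mul_le_sin (x := Real.pi * ((N : ℝ) - d) / N)
      (div_nonneg (mul_nonneg hpi.le (by linarith)) hN.le) (by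
      rw [div_le_div_iff₀ hN two_pos]
      nlinarith)
    refine le_trans ?_ h3
    rw [show 2 / Real.pi * (Real.pi * ((N : ℝ) - d) / N) = 2 * ((N : ℝ) - d) / N by field_simp]
    gcongr
    linarith

lemma sc_one (l : ℕ) : sc 1 l = 2 ^ l := by
  unfold sc
  rw [Nat.cast_one, div_one, Real.rpow_natCast]

lemma sep_aux (l i j : ℕ) (hi : i < 2 ^ l) (hij : j < i) :
    1 ≤ 2 ^ l * ‖om l i - om l j‖ := by
  rw [om_eq, om_eq, norm_exp_sub]
  have h := sin_lower (2 ^ l) (i - j) (by omega) (by omega)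
  have hp : (0 : ℝ) < 2 ^ l := by positivity
  have e : (2 * Real.pi * (i : ℝ) / 2 ^ l - 2 * Real.pi * (j : ℝ) / 2 ^ l) / 2 =
      Real.pi * ((i - j : ℕ) : ℝ) / ((2 ^ l : ℕ) : ℝ) := by
    rw [Nat.cast_sub hij.le]
    push_cast
    field_simp
  rw [e]
  have h2 := le_abs_self (Real.sin (Real.pi * ((i - j : ℕ) : ℝ) / ((2 ^ l : ℕ) : ℝ)))
  have h3 : 2 / (2 : ℝ) ^ l ≤ |Real.sin (Real.pi * ((i - j : ℕ) : ℝ) / ((2 ^ l : ℕ) : ℝ))| := by
    refine le_trans ?_ h2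
    push_cast at h ⊢
    exact h
  calc (1 : ℝ) ≤ 2 ^ l * (2 * (2 / 2 ^ l)) := by
        field_simp
        norm_num
    _ ≤ _ := by gcongr

theorem treeFam_om : TreeFam 1 (fun l i => emb (om l i)) 1 7 where
  unit := fun l i => by rw [emb_norm, om_norm]
  cpos := one_pos
  sep := by
    intro l i j hi hj hij
    rw [rho_om, sc_one]
    rcases lt_or_gt_of_ne hij with h | h
    · rw [norm_sub_rev]
      exact sep_aux l j i hj h
    · exact sep_aux l i j hi h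
  nest := by
    intro l m j hlm hj
    rw [rho_om, sc_one, om_eq, om_eq, norm_exp_sub]
    have hp : (0 : ℝ) < 2 ^ l := by positivity
    set q := j / 2 ^ (m - l) with hq
    have h1 : q * 2 ^ (m - l) ≤ j := Nat.div_mul_le_self _ _
    have h2 : j < (q + 1) * 2 ^ (m - l) := (Nat.div_lt_iff_lt_mul (by positivity)).1 (Nat.lt_succ_self _)
    have h1' : (q : ℝ) * 2 ^ (m - l) ≤ j := by exact_mod_cast h1
    have h2' : (j : ℝ) < (q + 1) * 2 ^ (m - l) := by exact_mod_cast h2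
    have hm : (2 : ℝ) ^ m = 2 ^ l * 2 ^ (m - l) := by rw [← pow_add]; congr 1; omega
    have hpm : (0 : ℝ) < 2 ^ (m - l) := by positivity
    have h3 := Real.abs_sin_le_abs (x := (2 * Real.pi * (j : ℝ) / 2 ^ m - 2 * Real.pi * (q : ℝ) / 2 ^ l) / 2)
    have e : (2 * Real.pi * (j : ℝ) / 2 ^ m - 2 * Real.pi * (q : ℝ) / 2 ^ l) / 2 =
        Real.pi * (((j : ℝ) - q * 2 ^ (m - l)) / 2 ^ (m - l)) / 2 ^ l := by
      rw [hm]
      field_simp
    rw [e] at h3 ⊢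
    have h4 : 0 ≤ ((j : ℝ) - q * 2 ^ (m - l)) / 2 ^ (m - l) := by
      apply div_nonneg _ hpm.le
      linarith
    have h5 : ((j : ℝ) - q * 2 ^ (m - l)) / 2 ^ (m - l) ≤ 1 := by
      rw [div_le_one hpm]
      linarith
    have hpi := Real.pi_pos
    have h6 : |Real.pi * (((j : ℝ) - q * 2 ^ (m - l)) / 2 ^ (m - l)) / 2 ^ l| ≤ Real.pi / 2 ^ l := by
      rw [abs_of_nonneg (by positivity)]
      gcongr
      nlinarith
    calc 2 ^ l * (2 * |Real.sin (Real.pi * (((j : ℝ) - q * 2 ^ (m - l)) / 2 ^ (m - l)) / 2 ^ l)|)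
        ≤ 2 ^ l * (2 * (Real.pi / 2 ^ l)) := by
          gcongr
          exact h3.trans h6
      _ = 2 * Real.pi := by field_simp
      _ ≤ 7 := by linarith [Real.pi_lt_d2]

lemma disc_diff {f : ℂ → ℂ} (hf : DifferentiableOn ℂ f (Metric.ball 0 1)) :
    DifferentiableOn ℂ (fun z : E 1 => f (z 0)) (Metric.ball 0 1) := by
  apply hf.comp
  · apply Differentiable.differentiableOn
    exact (EuclideanSpace.proj (0 : Fin 1) : E 1 →L[ℂ] ℂ).differentiable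
  · intro z hz
    rw [mem_ball_zero_iff] at hz ⊢
    rw [norm_apply_zero]
    exact hz

lemma hc_disc {f : ℂ → ℂ} (hf : DifferentiableOn ℂ f (Metric.ball 0 1)) (k : ℕ) (w : ℂ) :
    hc (fun z : E 1 => f (z 0)) k (emb w) = tc f k * w ^ k := by
  have h1 := (hc_props 1 _ (disc_diff hf)).2.1 k w (emb 1)
  have e : w • emb 1 = emb w := by
    rw [eq_emb (w • emb 1), PiLp.smul_apply, emb_zero_apply, smul_eq_mul, mul_one]
  rw [e] at h1
  rw [h1, mul_comm]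
  congr 1
  unfold hc
  congr 1
  funext z
  show f ((z • emb 1) 0) = f z
  rw [PiLp.smul_apply, emb_zero_apply, smul_eq_mul, mul_one]

lemma cut_disc {f : ℂ → ℂ} (hf : DifferentiableOn ℂ f (Metric.ball 0 1)) (l i : ℕ) :
    cut bD (1 / 4 * sc 1 l) (fun z : E 1 => f (z 0)) (emb (om l i)) = cD f l i := by
  unfold cut cD
  rw [sc_one]
  congr 1
  funext k
  rw [hc_disc hf]

/-- decay of the molecules of the disc -/
lemma dm_decay {v : ℝ → ℝ} (hv : Bump v (1 / 4) 4) (K : ℝ) : ∃ B : ℝ, 0 ≤ B ∧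
    ∀ l i, ∀ ξ : E 1, ‖ξ‖ = 1 → ∀ r : ℝ, 0 ≤ r → r ≤ 1 →
      ‖dm v l i (((r : ℂ) • ξ) 0)‖ ≤ B * (1 + 1 / 8 * sc 1 l * rho ξ (emb (om l i))) ^ (-K) := by
  obtain ⟨M, hM⟩ := exists_nat_ge K
  obtain ⟨C, hC, hk⟩ := multiplier_kernel v (1 / 4) 4 hv M (1 / 4) (by norm_num)
  refine ⟨C / 4, by positivity, ?_⟩
  intro l i ξ hξ r hr0 hr1
  have hp : (1 : ℝ) ≤ 2 ^ l := one_le_pow₀ (by norm_num)
  have hN : (1 / 4 : ℝ) ≤ 1 / 4 * 2 ^ l := by linarith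
  set ζ : ℂ := ξ 0 * (starRingEnd ℂ) (om l i) with hζ
  have hζ1 : ‖ζ‖ = 1 := by
    rw [hζ, norm_mul, RCLike.norm_conj, om_norm, norm_apply_zero, hξ, mul_one]
  have e1 : ((r : ℂ) • ξ) 0 * (starRingEnd ℂ) (om l i) = (r : ℂ) * ζ := by
    rw [PiLp.smul_apply, smul_eq_mul, hζ, mul_assoc]
  have hrζ : ‖(r : ℂ) * ζ‖ ≤ 1 := by
    rw [norm_mul, hζ1, mul_one, Complex.norm_real, Real.norm_of_nonneg hr0]
    exact hr1
  have h1 := hk (1 / 4 * 2 ^ l) hN ((r : ℂ) * ζ) hrζ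
  have e2 : rho ξ (emb (om l i)) = ‖1 - ζ‖ := by
    rw [rho_E1, emb_zero_apply, ← RCLike.norm_conj (1 - ζ)]
    congr 1
    rw [hζ]
    simp
  have h2 : ‖1 - ζ‖ ≤ 2 * ‖1 - (r : ℂ) * ζ‖ := by
    have h3 : ‖(r : ℂ) * ζ - ζ‖ = 1 - r := by
      have : (r : ℂ) * ζ - ζ = ((r - 1 : ℝ) : ℂ) * ζ := by push_cast; ring
      rw [this, norm_mul, hζ1, mul_one, Complex.norm_real, Real.norm_eq_abs, abs_of_nonpos (by linarith)]
      ring
    have h4 : 1 - r ≤ ‖1 - (r : ℂ) * ζ‖ := by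
      have := norm_sub_norm_le (1 : ℂ) ((r : ℂ) * ζ)
      rw [norm_one, norm_mul, hζ1, mul_one, Complex.norm_real, Real.norm_of_nonneg hr0] at this
      exact this
    calc ‖1 - ζ‖ = ‖(1 - (r : ℂ) * ζ) + ((r : ℂ) * ζ - ζ)‖ := by ring_nf
      _ ≤ ‖1 - (r : ℂ) * ζ‖ + ‖(r : ℂ) * ζ - ζ‖ := norm_add_le _ _
      _ ≤ _ := by rw [h3]; linarith
  have hb0 : 0 ≤ ‖1 - ζ‖ := norm_nonneg _
  have hb1 : 0 ≤ ‖1 - (r : ℂ) * ζ‖ := norm_nonneg _
  have hbase : 1 ≤ 1 + 1 / 8 * 2 ^ l * ‖1 - ζ‖ := by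
    have : 0 ≤ 1 / 8 * 2 ^ l * ‖1 - ζ‖ := by positivity
    linarith
  have h5 : (1 + 1 / 4 * 2 ^ l * ‖1 - (r : ℂ) * ζ‖) ^ (-(M : ℝ)) ≤
      (1 + 1 / 8 * 2 ^ l * ‖1 - ζ‖) ^ (-K) := by
    calc (1 + 1 / 4 * 2 ^ l * ‖1 - (r : ℂ) * ζ‖) ^ (-(M : ℝ))
        ≤ (1 + 1 / 8 * 2 ^ l * ‖1 - ζ‖) ^ (-(M : ℝ)) := by
          apply Real.rpow_le_rpow_of_nonpos (by linarith)
          · have : 1 / 8 * 2 ^ l * ‖1 - ζ‖ ≤ 1 / 8 * 2 ^ l * (2 * ‖1 - (r : ℂ) * ζ‖) := by gcongr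
            linarith
          · simp
      _ ≤ _ := Real.rpow_le_rpow_of_exponent_le hbase (by linarith)
  unfold dm
  rw [e1, norm_mul, e2, sc_one]
  have h6 : ‖(1 / 2 ^ l : ℂ)‖ = 1 / 2 ^ l := by simp
  rw [h6]
  calc 1 / 2 ^ l * ‖ker v (1 / 4 * 2 ^ l) ((r : ℂ) * ζ)‖
      ≤ 1 / 2 ^ l * (C * (1 / 4 * 2 ^ l) * (1 + 1 / 4 * 2 ^ l * ‖1 - (r : ℂ) * ζ‖) ^ (-(M : ℝ))) := by
        gcongr
    _ = C / 4 * (1 + 1 / 4 * 2 ^ l * ‖1 - (r : ℂ) * ζ‖) ^ (-(M : ℝ)) := by field_simp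
    _ ≤ _ := by gcongr

lemma dm_band {v : ℝ → ℝ} (hv : Bump v (1 / 4) 4) (l i : ℕ) :
    Band 1 (1 / 4) 4 (1 / 4 * 2 ^ l) (fun z : E 1 => dm v l i (z 0)) := by
  have hN : (0 : ℝ) < 1 / 4 * 2 ^ l := by positivity
  refine ⟨fun k z => (1 / 2 ^ l) * (((v ((k : ℝ) / (1 / 4 * 2 ^ l)) : ℝ) : ℂ) *
    (z 0 * (starRingEnd ℂ) (om l i)) ^ k), ?_, ?_, ?_, ?_⟩
  · intro k
    fun_prop
  · intro k c z
    simp only [PiLp.smul_apply, smul_eq_mul]
    rw [mul_assoc c, mul_pow]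
    ring
  · intro k hk z
    have : v ((k : ℝ) / (1 / 4 * 2 ^ l)) = 0 := by
      rcases hk with h | h
      · apply hv.lo
        rw [div_le_iff₀ hN]
        exact h
      · apply hv.hi
        rw [le_div_iff₀ hN]
        exact h
    simp only
    rw [this]
    simp
  · intro z
    simp only
    rw [dm_eq_sum hv, Finset.mul_sum]
    have : ⌈(4 : ℝ) * (1 / 4 * 2 ^ l)⌉₊ = 2 ^ l := by
      rw [show (4 : ℝ) * (1 / 4 * 2 ^ l) = ((2 ^ l : ℕ) : ℝ) by push_cast; ring]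
      exact Nat.ceil_natCast _
    rw [this]

lemma dm_orth {v : ℝ → ℝ} (hv : Bump v (1 / 4) 4) (l m i j : ℕ) (h : l + 4 ≤ m) (r : ℝ) :
    ∫ ξ : E 1, dm v l i (((r : ℂ) • ξ) 0) * (starRingEnd ℂ) (dm v m j (((r : ℂ) • ξ) 0)) ∂(sig 1) = 0 := by
  refine band_orth 1 le_rfl (1 / 4) 4 (1 / 4 * 2 ^ l) (1 / 4 * 2 ^ m) _ _ (dm_band hv l i)
    (dm_band hv m j) ?_ r
  have : (2 : ℝ) ^ (l + 4) ≤ 2 ^ m := pow_le_pow_right₀ (by norm_num) h
  rw [pow_add] at this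
  linarith

end Pool.Agent.H155R3.HB
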