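import Mathlib
import Pool.Agent.H155R3.HB.DiscT
import Pool.Agent.HpBall.Transfer
import Pool.Agent.HpBall.Weights
import Pool.Agent.HpBall.Combine
import Pool.Agent.HpBall.Synth
import Pool.Agent.HpBall.Tree

set_option autoImplicit false

open MeasureTheory Complex
open scoped ENNReal NNReal

namespace Pool.Agent.H155R3.HB

open Pool.Agent.HpBall

lemma fnorm_nonneg (p : ℝ) (L : ℕ) (x : ℕ → ℕ → ℂ) : 0 ≤ fnorm p L x := by
  unfold fnorm
  positivity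

/-- boundedness of the analysis operator -/
lemma analysis (n : ℕ) (hn : 1 ≤ n) (p : ℝ) (hp : 0 < p) (hp1 : p < 1) (pt : ℕ → ℕ → E n)
    (c C : ℝ) (hT : TreeFam n pt c C) (A : ℝ) (hA : 0 < A) (β : ℝ → ℝ) (a b : ℝ)
    (hβ : Bump β a b) : ∃ D : ℝ, 0 < D ∧ ∀ g : E n → ℂ, DifferentiableOn ℂ g (Metric.ball 0 1) →
      ∀ M : ℝ, 0 ≤ M → (∀ r : ℝ, 0 ≤ r → r < 1 →
        ∫⁻ ξ, ENNReal.ofReal (‖g ((r : ℂ) • ξ)‖ ^ p) ∂(sig n) ≤ ENNReal.ofReal M) →
      ∀ L : ℕ, fnorm p L (fun l i => cut β (A * sc n l) g (pt l i)) ≤ D * M := by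
  obtain ⟨D0, hD0, h0⟩ := weights_bound n hn p hp hp1 pt c C hT A hA β a b hβ
  obtain ⟨D, hD, h1⟩ := HpBall.fnorm_of_weights p hp hp1 D0 hD0
  refine ⟨D, hD, fun g hg M hM hb L => ?_⟩
  apply le_of_forall_pos_le_add
  intro δ hδ
  have hM' : 0 < M + δ / D := by positivity
  have hb' : ∀ r : ℝ, 0 ≤ r → r < 1 →
        ∫⁻ ξ, ENNReal.ofReal (‖g ((r : ℂ) • ξ)‖ ^ p) ∂(sig n) ≤ ENNReal.ofReal (M + δ / D) :=
    fun r hr0 hr1 => (hb r hr0 hr1).trans (ENNReal.ofReal_le_ofReal (by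
      have : 0 < δ / D := by positivity
      linarith))
  have key : fnorm p L (fun l i => cut β (A * sc n l) g (pt l i)) ≤ D * (M + δ / D) := by
    rcases Nat.eq_zero_or_pos L with hL | hL
    · subst hL
      have : fnorm p 0 (fun l i => cut β (A * sc n l) g (pt l i)) = 0 := by
        unfold fnorm
        simp [Real.zero_rpow (show p / 2 ≠ 0 by positivity)]
      rw [this]
      positivity
    · obtain ⟨W, hW0, hW1, hW2⟩ := h0 g hg (M + δ / D) hM' hb' L hL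
      exact h1 L _ W (M + δ / D) hL hM' hW0 hW1 hW2
  refine key.trans (le_of_eq ?_)
  field_simp

lemma rpow_add_le' (p : ℝ) (hp : 0 < p) (hp1 : p < 1) (x y : ℂ) :
    ‖x + y‖ ^ p ≤ ‖x‖ ^ p + ‖y‖ ^ p := by
  calc ‖x + y‖ ^ p ≤ (‖x‖ + ‖y‖) ^ p := Real.rpow_le_rpow (norm_nonneg _) (norm_add_le _ _) hp.le
    _ ≤ _ := Real.rpow_add_le_add_rpow (norm_nonneg _) (norm_nonneg _) hp.le hp1.le

/-- boundedness of the synthesis operator of the disc -/
lemma disc_syn (p : ℝ) (hp : 0 < p) (hp1 : p < 1) : ∃ D : ℝ, 0 ≤ D ∧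
    ∀ (x : ℕ → ℕ → ℂ) (L : ℕ) (r : ℝ), 0 ≤ r → r ≤ 1 →
      ∫ θ in (0 : ℝ)..2 * Real.pi, ‖∑ l ∈ Finset.range L, ∑ i ∈ Finset.range (2 ^ l), x l i *
        dm vD l i ((r : ℂ) * Complex.exp ((θ : ℂ) * I))‖ ^ p ≤ D * fnorm p L x := by
  obtain ⟨K, hK, hsyn⟩ := synthesis_bound 1 le_rfl p hp hp1
  obtain ⟨B, hB, hdec⟩ := dm_decay vD_bump K
  obtain ⟨D, hD, hs⟩ := hsyn (fun l i => emb (om l i)) 1 7 treeFam_om (1 / 8) (by norm_num) B 4
  have hcont : ∀ l i, Continuous (fun z : E 1 => dm vD l i (z 0)) := fun l i =>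
    (dm_diff vD_bump l i).continuous.comp (by fun_prop)
  have hs' := hs (fun l i z => dm vD l i (z 0)) hcont
    (fun l i _ ξ hξ r hr0 hr1 => hdec l i ξ hξ r hr0 hr1)
    (fun l m i j h r _ _ => dm_orth vD_bump l m i j h r)
  have hs0 : 0 < (sig 1 Set.univ).toReal :=
    ENNReal.toReal_pos sig_univ_pos.ne' (measure_ne_top _ _)
  refine ⟨(2 * Real.pi) / (sig 1 Set.univ).toReal * D, by positivity, fun x L r hr0 hr1 => ?_⟩
  set G : ℂ → ℂ := fun w => ∑ l ∈ Finset.range L, ∑ i ∈ Finset.range (2 ^ l), x l i *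
    dm vD l i (2 * w) with hG
  have hGd : Differentiable ℂ G := by
    intro w
    apply DifferentiableAt.fun_sum
    intro l _
    apply DifferentiableAt.fun_sum
    intro i _
    apply DifferentiableAt.const_mul
    exact ((dm_diff vD_bump l i) (2 * w)).comp w (by fun_prop)
  have h := le_circ G hGd.differentiableOn p hp (D * fnorm p L x)
    (mul_nonneg hD.le (fnorm_nonneg _ _ _)) (r / 2) (by positivity) (by linarith) ?_
  · have e : ∀ θ : ℝ, G (((r / 2 : ℝ) : ℂ) * Complex.exp ((θ : ℂ) * I)) =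
        ∑ l ∈ Finset.range L, ∑ i ∈ Finset.range (2 ^ l), x l i *
        dm vD l i ((r : ℂ) * Complex.exp ((θ : ℂ) * I)) := by
      intro θ
      simp only [hG]
      have : (2 : ℂ) * (((r / 2 : ℝ) : ℂ) * Complex.exp ((θ : ℂ) * I)) =
          (r : ℂ) * Complex.exp ((θ : ℂ) * I) := by
        push_cast
        ring
      rw [this]
    simp_rw [e] at h
    rw [mul_assoc]
    exact h
  · have e : ∀ ξ : E 1, G ((((r / 2 : ℝ) : ℂ) • ξ) 0) =
        ∑ l ∈ Finset.range L, ∑ i ∈ Finset.range (2 ^ l), x l i *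
        dm vD l i (((r : ℂ) • ξ) 0) := by
      intro ξ
      simp only [hG]
      have : (2 : ℂ) * ((((r / 2 : ℝ) : ℂ) • ξ) 0) = ((r : ℂ) • ξ) 0 := by
        rw [PiLp.smul_apply, PiLp.smul_apply, smul_eq_mul, smul_eq_mul]
        push_cast
        ring
      rw [this]
    simp_rw [e]
    exact hs' x L r hr0 hr1

/-- the disc analysis -/
lemma disc_ana (p : ℝ) (hp : 0 < p) (hp1 : p < 1) : ∃ D : ℝ, 0 ≤ D ∧
    ∀ (f : ℂ → ℂ) (M : ℝ), DifferentiableOn ℂ f (Metric.ball 0 1) →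
        (∀ r : ℝ, 0 ≤ r → r < 1 →
          ∫ θ in (0:ℝ)..2 * Real.pi, ‖f ((r : ℂ) * Complex.exp ((θ : ℂ) * Complex.I))‖ ^ p ≤ M) →
      0 ≤ M ∧ ‖f 0‖ ^ p ≤ M ∧ ∀ L, fnorm p L (cD f) ≤ D * M := by
  obtain ⟨D, hD, h⟩ := analysis 1 le_rfl p hp hp1 (fun l i => emb (om l i)) 1 7 treeFam_om (1 / 4)
    (by norm_num) bD (1 / 2) 2 bD_bump
  refine ⟨D * ((sig 1 Set.univ).toReal / (2 * Real.pi)), by positivity, fun f M hf hM => ?_⟩
  have h0 := hM 0 le_rfl one_pos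
  simp only [Complex.ofReal_zero, zero_mul] at h0
  rw [intervalIntegral.integral_const, smul_eq_mul, sub_zero] at h0
  have hf0 : 0 ≤ ‖f 0‖ ^ p := by positivity
  have hpi : 1 ≤ 2 * Real.pi := by linarith [Real.pi_gt_three]
  have hM0 : 0 ≤ M := le_trans (by positivity) h0
  refine ⟨hM0, ?_, ?_⟩
  · nlinarith
  · intro L
    have h1 := h (fun z : E 1 => f (z 0)) (disc_diff hf) _ (by positivity)
      (circ_le f hf p hp M hM) L
    have e : (fun l i => cut bD (1 / 4 * sc 1 l) (fun z : E 1 => f (z 0)) (emb (om l i))) = cD f := by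
      funext l i
      exact cut_disc hf l i
    rw [e] at h1
    rw [mul_assoc]
    exact h1

end Pool.Agent.H155R3.HB
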