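import Mathlib
import Pool.Agent.H155R3.HB.Asm

set_option autoImplicit false

open MeasureTheory Complex
open scoped ENNReal NNReal

namespace Pool.Agent.H155R3.HB

open Pool.Agent.HpBall

/-- from the ball of the coordinate space to the euclidean space -/
noncomputable def up {n : ℕ} (g : (Fin n → ℂ) → ℂ) (z : E n) : ℂ := g (WithLp.ofLp z)

/-- the disc side, in terms of coefficients -/
noncomputable def synD (x : ℕ → ℕ → ℂ) (w : ℂ) : ℂ := ∑' l, lev (dm vD) x l w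

lemma disc_final (p : ℝ) (hp : 0 < p) (hp1 : p < 1) : ∃ D : ℝ, 0 ≤ D ∧
    ∀ (a₀ : ℂ) (x : ℕ → ℕ → ℂ) (X : ℝ), 0 ≤ X → (∀ L, fnorm p L x ≤ X) →
      DifferentiableOn ℂ (fun w => a₀ + synD x w) (Metric.ball 0 1) ∧
      (∀ w : ℂ, ‖w‖ < 1 → Summable (fun l => lev (dm vD) x l w)) ∧
      ∀ r : ℝ, 0 ≤ r → r < 1 →
        ∫ θ in (0:ℝ)..2 * Real.pi, ‖a₀ + synD x ((r : ℂ) * Complex.exp ((θ : ℂ) * Complex.I))‖ ^ p
          ≤ 2 * Real.pi * ‖a₀‖ ^ p + D * X := by
  obtain ⟨D, hD, hsyn⟩ := disc_syn p hp hp1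
  refine ⟨D, hD, fun a₀ x X hX hx => ?_⟩
  have hd := dsum_diff vD_bump p hp x X hX hx
  refine ⟨(differentiableOn_const _).add hd, ?_, ?_⟩
  · intro w hw
    obtain ⟨u, hu, hb⟩ := dlev_bound vD_bump p hp x X hX hx ‖w‖ (norm_nonneg _) hw
    exact Summable.of_norm_bounded hu fun l => hb l w le_rfl
  · intro r hr0 hr1
    have h1 := dlev_integral vD_bump p hp D hD hsyn x X hX hx r hr0 hr1
    have hpi : (0:ℝ) ≤ 2 * Real.pi := by positivity
    have hc : Continuous (fun θ : ℝ => synD x ((r : ℂ) * Complex.exp ((θ : ℂ) * I))) := by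
      have h2 := hd.continuousOn
      exact h2.comp_continuous (f := fun θ : ℝ => (r : ℂ) * Complex.exp ((θ : ℂ) * I))
        (by fun_prop) (fun θ => by
          rw [mem_ball_zero_iff, norm_mul, Complex.norm_exp_ofReal_mul_I, mul_one,
            Complex.norm_real, Real.norm_of_nonneg hr0]
          exact hr1)
    have hc1 : Continuous (fun θ : ℝ =>
        ‖a₀ + synD x ((r : ℂ) * Complex.exp ((θ : ℂ) * I))‖ ^ p) :=
      (continuous_const.add hc).norm.rpow_const (fun _ => Or.inr hp.le)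
    have hc2 : Continuous (fun θ : ℝ =>
        ‖synD x ((r : ℂ) * Complex.exp ((θ : ℂ) * I))‖ ^ p) :=
      hc.norm.rpow_const (fun _ => Or.inr hp.le)
    calc ∫ θ in (0:ℝ)..2 * Real.pi, ‖a₀ + synD x ((r : ℂ) * Complex.exp ((θ : ℂ) * I))‖ ^ p
        ≤ ∫ θ in (0:ℝ)..2 * Real.pi, (‖a₀‖ ^ p +
            ‖synD x ((r : ℂ) * Complex.exp ((θ : ℂ) * I))‖ ^ p) := by
          apply intervalIntegral.integral_mono_on hpi (hc1.intervalIntegrable _ _)
            ((continuous_const.add hc2).intervalIntegrable _ _)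
          intro θ _
          exact rpow_add_le' p hp hp1 _ _
      _ = 2 * Real.pi * ‖a₀‖ ^ p + ∫ θ in (0:ℝ)..2 * Real.pi,
            ‖synD x ((r : ℂ) * Complex.exp ((θ : ℂ) * I))‖ ^ p := by
          rw [intervalIntegral.integral_add (continuous_const.intervalIntegrable _ _)
            (hc2.intervalIntegrable _ _), intervalIntegral.integral_const, smul_eq_mul, sub_zero]
      _ ≤ _ := by
          gcongr
          exact h1

/-- everything about the ball -/
lemma ball_final (n : ℕ) (hn : 1 ≤ n) (p : ℝ) (hp : 0 < p) (hp1 : p < 1) :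
    ∃ (pt : ℕ → ℕ → E n) (A : ℝ) (β : ℝ → ℝ) (a b : ℝ) (Ψ : ℕ → ℕ → E n → ℂ) (D : ℝ),
      0 < A ∧ Bump β a b ∧ 0 ≤ D ∧ (∀ l i, ‖pt l i‖ = 1) ∧
      (∀ g : E n → ℂ, DifferentiableOn ℂ g (Metric.ball 0 1) → ∀ M : ℝ, 0 ≤ M →
        (∀ r : ℝ, 0 ≤ r → r < 1 →
          ∫⁻ ξ, ENNReal.ofReal (‖g ((r : ℂ) • ξ)‖ ^ p) ∂(sig n) ≤ ENNReal.ofReal M) →
        ∀ L : ℕ, fnorm p L (fun l i => cut β (A * sc n l) g (pt l i)) ≤ D * M) ∧
      (∀ (a₀ : ℂ) (x : ℕ → ℕ → ℂ) (X : ℝ), 0 ≤ X → (∀ L, fnorm p L x ≤ X) →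
        DifferentiableOn ℂ (fun z => a₀ + ∑' l, lev Ψ x l z) (Metric.ball 0 1) ∧
        (∀ z : E n, ‖z‖ < 1 → Summable (fun l => lev Ψ x l z)) ∧
        (∀ r : ℝ, 0 ≤ r → r < 1 →
          ∫⁻ ξ, ENNReal.ofReal (‖a₀ + ∑' l, lev Ψ x l ((r : ℂ) • ξ)‖ ^ p) ∂(sig n) ≤
            ENNReal.ofReal ((sig n Set.univ).toReal * ‖a₀‖ ^ p + D * X)) ∧
        (∑' l, lev Ψ x l 0 = 0) ∧
        ∀ m j, j < 2 ^ m →
          cut β (A * sc n m) (fun z => a₀ + ∑' l, lev Ψ x l z) (pt m j) = x m j) := by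
  obtain ⟨K, hK, hsyn⟩ := synthesis_bound n hn p hp hp1
  obtain ⟨pt, c, C, hT⟩ := exists_tree n hn
  obtain ⟨A, B, β, a, b, Ψ, hA, hB, hβ, hd, hdec, horth, hbi, hz, ho, hg⟩ :=
    molecules n hn pt c C hT K hK
  obtain ⟨D1, hD1, hs⟩ := hsyn pt c C hT A hA B 1
  have hs' := hs Ψ (fun l i => (hd l i).continuous) hdec horth
  obtain ⟨D2, hD2, ha⟩ := analysis n hn p hp hp1 pt c C hT A hA β a b hβ
  refine ⟨pt, A, β, a, b, Ψ, D1 + D2, hA, hβ, by positivity, hT.unit, ?_, ?_⟩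
  · intro g hg M hM hb L
    refine (ha g hg M hM hb L).trans ?_
    nlinarith
  · intro a₀ x X hX hx
    have hloc := lev_locsum hn p hp Ψ B hB hg x X hX hx
    have hlevd := lev_diff Ψ hd x
    have hdiff := hloc.differentiableOn hlevd
    refine ⟨(differentiableOn_const _).add hdiff, fun z hz => hloc.summable hz, ?_, ?_, ?_⟩
    · intro r hr0 hr1
      have h1 := lev_bound hn p hp Ψ hd D1 hD1.le hs' x X hx hloc r hr0 hr1
      have hs : sig n Set.univ = ENNReal.ofReal (sig n Set.univ).toReal :=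
        (ENNReal.ofReal_toReal (measure_ne_top _ _)).symm
      calc ∫⁻ ξ, ENNReal.ofReal (‖a₀ + ∑' l, lev Ψ x l ((r : ℂ) • ξ)‖ ^ p) ∂(sig n)
          ≤ ∫⁻ ξ, (ENNReal.ofReal (‖a₀‖ ^ p) +
              ENNReal.ofReal (‖∑' l, lev Ψ x l ((r : ℂ) • ξ)‖ ^ p)) ∂(sig n) := by
            apply lintegral_mono
            intro ξ
            beta_reduce
            rw [← ENNReal.ofReal_add (by positivity) (by positivity)]
            exact ENNReal.ofReal_le_ofReal (rpow_add_le' p hp hp1 _ _)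
        _ = ENNReal.ofReal (‖a₀‖ ^ p) * sig n Set.univ +
              ∫⁻ ξ, ENNReal.ofReal (‖∑' l, lev Ψ x l ((r : ℂ) • ξ)‖ ^ p) ∂(sig n) := by
            rw [lintegral_add_left measurable_const, lintegral_const]
        _ ≤ ENNReal.ofReal (‖a₀‖ ^ p) * sig n Set.univ + ENNReal.ofReal (D1 * X) := by gcongr
        _ = ENNReal.ofReal ((sig n Set.univ).toReal * ‖a₀‖ ^ p + D1 * X) := by
            rw [ENNReal.ofReal_add (by positivity) (by positivity),
              ENNReal.ofReal_mul ENNReal.toReal_nonneg, ← hs, mul_comm]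
        _ ≤ _ := by
            apply ENNReal.ofReal_le_ofReal
            have : 0 ≤ D2 * X := by positivity
            nlinarith
    · have : ∀ l, lev Ψ x l 0 = 0 := by
        intro l
        unfold lev
        apply Finset.sum_eq_zero
        intro i hi
        rw [Finset.mem_range] at hi
        have h2 := hg l i hi 0 (by simp)
        rw [norm_zero, Real.zero_rpow (sc_pos n l).ne', mul_zero] at h2
        have h3 : Ψ l i 0 = 0 := norm_le_zero_iff.1 h2
        rw [h3, mul_zero]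
      simp [this]
    · intro m j hj
      exact cut_synth hβ hA pt hT.unit Ψ hd hbi hz ho x hloc a₀ m j hj

end Pool.Agent.H155R3.HB
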