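import Mathlib
import Pool.Agent.H155R3.HB.Asm2

set_option autoImplicit false

open MeasureTheory Complex
open scoped ENNReal NNReal

namespace Pool.Agent.H155R3.HB

open Pool.Agent.HpBall

lemma lev_congr {X : Type} (Ψ : ℕ → ℕ → X → ℂ) (x y : ℕ → ℕ → ℂ)
    (h : ∀ l i, i < 2 ^ l → x l i = y l i) (l : ℕ) (w : X) : lev Ψ x l w = lev Ψ y l w := by
  unfold lev
  apply Finset.sum_congr rfl
  intro i hi
  rw [Finset.mem_range] at hi
  rw [h l i hi]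

theorem main2 :
    ∀ n : ℕ, 2 ≤ n → ∀ p : ℝ, 0 < p → p < 1 →
    ∃ (T : (ℂ → ℂ) → (Fin n → ℂ) → ℂ) (P : ((Fin n → ℂ) → ℂ) → ℂ → ℂ) (C : ℝ),
      (∀ (f g : ℂ → ℂ) (a b : ℂ) (M N : ℝ),
        DifferentiableOn ℂ f (Metric.ball 0 1) → DifferentiableOn ℂ g (Metric.ball 0 1) →
        (∀ r : ℝ, 0 ≤ r → r < 1 →
          ∫ θ in (0:ℝ)..2 * Real.pi, ‖f ((r : ℂ) * Complex.exp ((θ : ℂ) * Complex.I))‖ ^ p ≤ M) →
        (∀ r : ℝ, 0 ≤ r → r < 1 →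
          ∫ θ in (0:ℝ)..2 * Real.pi, ‖g ((r : ℂ) * Complex.exp ((θ : ℂ) * Complex.I))‖ ^ p ≤ N) →
        ∀ z : Fin n → ℂ, ∑ i, ‖z i‖ ^ 2 < 1 → T (a • f + b • g) z = a * T f z + b * T g z) ∧
      (∀ (f g : (Fin n → ℂ) → ℂ) (a b : ℂ) (M N : ℝ),
        DifferentiableOn ℂ f {z : Fin n → ℂ | ∑ i, ‖z i‖ ^ 2 < 1} →
        DifferentiableOn ℂ g {z : Fin n → ℂ | ∑ i, ‖z i‖ ^ 2 < 1} →
        (∀ r : ℝ, 0 ≤ r → r < 1 →
          ∫ z : Fin n → ℂ, ‖f (((r / Real.sqrt (∑ i, ‖z i‖ ^ 2) : ℝ) : ℂ) • z)‖ ^ p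
            * Real.exp (-(∑ i, ‖z i‖ ^ 2)) ≤ M) →
        (∀ r : ℝ, 0 ≤ r → r < 1 →
          ∫ z : Fin n → ℂ, ‖g (((r / Real.sqrt (∑ i, ‖z i‖ ^ 2) : ℝ) : ℂ) • z)‖ ^ p
            * Real.exp (-(∑ i, ‖z i‖ ^ 2)) ≤ N) →
        ∀ w : ℂ, ‖w‖ < 1 → P (a • f + b • g) w = a * P f w + b * P g w) ∧
      (∀ (f : ℂ → ℂ) (M : ℝ),
        DifferentiableOn ℂ f (Metric.ball 0 1) →
        (∀ r : ℝ, 0 ≤ r → r < 1 →
          ∫ θ in (0:ℝ)..2 * Real.pi, ‖f ((r : ℂ) * Complex.exp ((θ : ℂ) * Complex.I))‖ ^ p ≤ M) →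
        DifferentiableOn ℂ (T f) {z : Fin n → ℂ | ∑ i, ‖z i‖ ^ 2 < 1} ∧
        ∀ r : ℝ, 0 ≤ r → r < 1 →
          ∫ z : Fin n → ℂ, ‖T f (((r / Real.sqrt (∑ i, ‖z i‖ ^ 2) : ℝ) : ℂ) • z)‖ ^ p
            * Real.exp (-(∑ i, ‖z i‖ ^ 2)) ≤ C * M) ∧
      (∀ (f : (Fin n → ℂ) → ℂ) (M : ℝ),
        DifferentiableOn ℂ f {z : Fin n → ℂ | ∑ i, ‖z i‖ ^ 2 < 1} →
        (∀ r : ℝ, 0 ≤ r → r < 1 →
          ∫ z : Fin n → ℂ, ‖f (((r / Real.sqrt (∑ i, ‖z i‖ ^ 2) : ℝ) : ℂ) • z)‖ ^ p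
            * Real.exp (-(∑ i, ‖z i‖ ^ 2)) ≤ M) →
        DifferentiableOn ℂ (P f) (Metric.ball 0 1) ∧
        ∀ r : ℝ, 0 ≤ r → r < 1 →
          ∫ θ in (0:ℝ)..2 * Real.pi, ‖P f ((r : ℂ) * Complex.exp ((θ : ℂ) * Complex.I))‖ ^ p
            ≤ C * M) ∧
      (∀ (f : ℂ → ℂ) (M : ℝ),
        DifferentiableOn ℂ f (Metric.ball 0 1) →
        (∀ r : ℝ, 0 ≤ r → r < 1 →
          ∫ θ in (0:ℝ)..2 * Real.pi, ‖f ((r : ℂ) * Complex.exp ((θ : ℂ) * Complex.I))‖ ^ p ≤ M) →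
        ∀ w : ℂ, ‖w‖ < 1 → P (T f) w = f w) := by
  intro n hn2 p hp hp1
  have hn : 1 ≤ n := by omega
  obtain ⟨DA, hDA, hana⟩ := disc_ana p hp hp1
  obtain ⟨DS, hDS, hsyn⟩ := disc_final p hp hp1
  obtain ⟨pt, A, β, a', b', Ψ, DB, hA, hβ, hDB, hpt, hbana, hball⟩ := ball_final n hn p hp hp1
  set s : ℝ := (sig n Set.univ).toReal with hs
  have hs0 : 0 < s := ENNReal.toReal_pos sig_univ_pos.ne' (measure_ne_top _ _)
  have hsE : sig n Set.univ = ENNReal.ofReal s := (ENNReal.ofReal_toReal (measure_ne_top _ _)).symm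
  set cB : ((Fin n → ℂ) → ℂ) → ℕ → ℕ → ℂ := fun g l i => cut β (A * sc n l) (up g) (pt l i) with hcB
  -- facts on the ball side
  have hBall : ∀ (f : (Fin n → ℂ) → ℂ) (M : ℝ),
        DifferentiableOn ℂ f {z : Fin n → ℂ | ∑ i, ‖z i‖ ^ 2 < 1} →
        (∀ r : ℝ, 0 ≤ r → r < 1 →
          ∫ z : Fin n → ℂ, ‖f (((r / Real.sqrt (∑ i, ‖z i‖ ^ 2) : ℝ) : ℂ) • z)‖ ^ p
            * Real.exp (-(∑ i, ‖z i‖ ^ 2)) ≤ M) →
        DifferentiableOn ℂ (up f) (Metric.ball 0 1) ∧ 0 ≤ M ∧ ‖f 0‖ ^ p ≤ M / s ∧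
          ∀ L, fnorm p L (cB f) ≤ DB * M := by
    intro f M hf hM
    have hd : DifferentiableOn ℂ (up f) (Metric.ball 0 1) := (transfer_diff n f).1 hf
    have h1 : ∀ r : ℝ, 0 ≤ r → r < 1 →
        ∫⁻ ξ, ENNReal.ofReal (‖up f ((r : ℂ) • ξ)‖ ^ p) ∂(sig n) ≤ ENNReal.ofReal M := by
      intro r hr0 hr1
      have h2 := transfer n hn p hp f hf r hr0 hr1
      unfold up
      rw [← h2]
      exact ENNReal.ofReal_le_ofReal (hM r hr0 hr1)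
    have hM0 : 0 ≤ M := by
      refine le_trans ?_ (hM 0 le_rfl one_pos)
      apply integral_nonneg
      intro z
      positivity
    refine ⟨hd, hM0, ?_, fun L => hbana (up f) hd M hM0 h1 L⟩
    have h3 := h1 0 le_rfl one_pos
    have e : ∀ ξ : E n, up f (((0 : ℝ) : ℂ) • ξ) = f 0 := by
      intro ξ
      unfold up
      rw [Complex.ofReal_zero, zero_smul]
      rfl
    simp_rw [e] at h3
    rw [lintegral_const, hsE, ← ENNReal.ofReal_mul (by positivity),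
      ENNReal.ofReal_le_ofReal_iff hM0] at h3
    rw [le_div_iff₀ hs0]
    exact h3
  set T : (ℂ → ℂ) → (Fin n → ℂ) → ℂ := fun f z =>
    f 0 + ∑' l, lev Ψ (cD f) l (WithLp.toLp 2 z : E n) with hT
  set P : ((Fin n → ℂ) → ℂ) → ℂ → ℂ := fun g w => g 0 + synD (cB g) w with hP
  have hTup : ∀ f, up (T f) = fun z : E n => f 0 + ∑' l, lev Ψ (cD f) l z := by
    intro f
    rfl
  have hnorm : ∀ z : Fin n → ℂ, ∑ i, ‖z i‖ ^ 2 < 1 → ‖(WithLp.toLp 2 z : E n)‖ < 1 := by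
    intro z hz
    rw [EuclideanSpace.norm_eq]
    rw [Real.sqrt_lt' one_pos]
    simpa using hz
  refine ⟨T, P, (s + DB * DA) + (2 * Real.pi / s + DS * DB), ?_, ?_, ?_, ?_, ?_⟩
  · intro f g a b M N hf hg hM hN z hz
    obtain ⟨hM0, hf0, hfL⟩ := hana f M hf hM
    obtain ⟨hN0, hg0, hgL⟩ := hana g N hg hN
    have hz' := hnorm z hz
    have s1 := (hball (f 0) (cD f) (DA * M) (by positivity) hfL).2.1 _ hz'
    have s2 := (hball (g 0) (cD g) (DA * N) (by positivity) hgL).2.1 _ hz'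
    have e : ∀ l, lev Ψ (cD (a • f + b • g)) l (WithLp.toLp 2 z : E n) =
        a * lev Ψ (cD f) l (WithLp.toLp 2 z : E n) + b * lev Ψ (cD g) l (WithLp.toLp 2 z : E n) :=
      fun l => lev_lin Ψ _ _ _ a b (fun l i _ => cD_lin hf hg a b l i) l _
    simp only [hT]
    simp_rw [e]
    rw [(s1.mul_left a).tsum_add (s2.mul_left b), tsum_mul_left, tsum_mul_left]
    simp only [Pi.add_apply, Pi.smul_apply, smul_eq_mul]
    ring
  · intro f g a b M N hf hg hM hN w hw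
    obtain ⟨hfd, hM0, hf0, hfL⟩ := hBall f M hf hM
    obtain ⟨hgd, hN0, hg0, hgL⟩ := hBall g N hg hN
    have s1 := (hsyn (f 0) (cB f) (DB * M) (by positivity) hfL).2.1 w hw
    have s2 := (hsyn (g 0) (cB g) (DB * N) (by positivity) hgL).2.1 w hw
    have e : ∀ l, lev (dm vD) (cB (a • f + b • g)) l w =
        a * lev (dm vD) (cB f) l w + b * lev (dm vD) (cB g) l w :=
      fun l => lev_lin (dm vD) _ _ _ a b (fun l i _ =>
        cut_lin hβ (mul_pos hA (sc_pos n l)) hfd hgd a b (hpt l i)) l _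
    simp only [hP, synD]
    simp_rw [e]
    rw [(s1.mul_left a).tsum_add (s2.mul_left b), tsum_mul_left, tsum_mul_left]
    simp only [Pi.add_apply, Pi.smul_apply, smul_eq_mul]
    ring
  · intro f M hf hM
    obtain ⟨hM0, hf0, hfL⟩ := hana f M hf hM
    obtain ⟨h1, h2, h3, h4, h5⟩ := hball (f 0) (cD f) (DA * M) (by positivity) hfL
    have hTd : DifferentiableOn ℂ (T f) {z : Fin n → ℂ | ∑ i, ‖z i‖ ^ 2 < 1} := by
      apply (transfer_diff n (T f)).2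
      exact h1
    refine ⟨hTd, fun r hr0 hr1 => ?_⟩
    have h6 := transfer n hn p hp (T f) hTd r hr0 hr1
    have h7 := h3 r hr0 hr1
    have h8 : ENNReal.ofReal (∫ z : Fin n → ℂ, ‖T f (((r / Real.sqrt (∑ i, ‖z i‖ ^ 2) : ℝ) : ℂ) • z)‖ ^ p
            * Real.exp (-(∑ i, ‖z i‖ ^ 2))) ≤ ENNReal.ofReal (s * ‖f 0‖ ^ p + DB * (DA * M)) := by
      rw [h6]
      exact h7
    rw [ENNReal.ofReal_le_ofReal_iff (by positivity)] at h8
    refine h8.trans ?_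
    have h9 : 0 ≤ 2 * Real.pi / s * M := by positivity
    have h10 : 0 ≤ DS * DB * M := by positivity
    have h11 : s * ‖f 0‖ ^ p ≤ s * M := by gcongr
    nlinarith
  · intro f M hf hM
    obtain ⟨hfd, hM0, hf0, hfL⟩ := hBall f M hf hM
    obtain ⟨h1, h2, h3⟩ := hsyn (f 0) (cB f) (DB * M) (by positivity) hfL
    refine ⟨h1, fun r hr0 hr1 => ?_⟩
    refine (h3 r hr0 hr1).trans ?_
    have h9 : 0 ≤ s * M := by positivity
    have h10 : 0 ≤ DB * DA * M := by positivity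
    have h11 : 2 * Real.pi * ‖f 0‖ ^ p ≤ 2 * Real.pi * (M / s) := by gcongr
    have h12 : 2 * Real.pi * (M / s) = 2 * Real.pi / s * M := by ring
    nlinarith
  · intro f M hf hM w hw
    obtain ⟨hM0, hf0, hfL⟩ := hana f M hf hM
    obtain ⟨h1, h2, h3, h4, h5⟩ := hball (f 0) (cD f) (DA * M) (by positivity) hfL
    have hT0 : T f 0 = f 0 := by
      simp only [hT]
      have : (WithLp.toLp 2 (0 : Fin n → ℂ) : E n) = 0 := rfl
      rw [this, h4, add_zero]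
    have hc : ∀ l i, i < 2 ^ l → cB (T f) l i = cD f l i := by
      intro l i hi
      simp only [hcB]
      rw [hTup]
      exact h5 l i hi
    simp only [hP]
    rw [hT0]
    have e1 : synD (cB (T f)) w = ∑' l, lev (dm vD) (cD f) l w := by
      unfold synD
      exact tsum_congr fun l => lev_congr _ _ _ hc l w
    have h6 := disc_frame bD vD bD_bump vD_bump bD_sum vD_one f hf w hw
    have e2 : ∑' l, lev (dm vD) (cD f) l w = f w - f 0 := h6.tsum_eq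
    rw [e1, e2]
    ring

end Pool.Agent.H155R3.HB
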