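import Mathlib
import Pool.Agent.Helper58.EN.JZ

set_option autoImplicit false

namespace Pool.Agent.H155R3.EN

open Pool.Agent.Helper58.EN

theorem closure_eq (R : Type) [Ring R] (n : ℕ) :
    (Subgroup.closure
          {g : Matrix.GeneralLinearGroup (Fin n) R |
            ∃ i j : Fin n, i ≠ j ∧ ∃ r : R,
              (g : Matrix (Fin n) (Fin n) R) =
                1 + Matrix.of (fun a b => if a = i ∧ b = j then r else 0)}) = El (Fin n) R := by
  unfold El EL
  congr 1
  ext g
  simp only [Set.mem_setOf_eq, Set.mem_univ, true_and]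
  have key : ∀ (i j : Fin n) (r : R),
      (Matrix.of (fun a b => if a = i ∧ b = j then r else 0) : Matrix (Fin n) (Fin n) R) =
        Matrix.single i j r := by
    intro i j r
    ext a b
    simp only [Matrix.of_apply, Matrix.single_apply]
    congr 1
    simp [eq_comm]
  constructor
  · rintro ⟨i, j, hij, r, h⟩
    refine ⟨i, j, hij, r, ?_⟩
    apply Units.ext
    rw [tv_val, h, key]
  · rintro ⟨i, j, hij, r, h⟩
    refine ⟨i, j, hij, r, ?_⟩
    rw [h, key]
    exact tv_val i j hij r

theorem main : ∀ (R : Type) [Ring R],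
      (∃ d : ℕ, 0 < d ∧ ∃ c : Equiv.Perm (Fin d) → ℤ, c 1 = 1 ∧
        ∀ x : Fin d → R,
          ∑ σ : Equiv.Perm (Fin d), ((c σ : ℤ) : R) * (List.ofFn (fun i => x (σ i))).prod = 0) →
      ∀ n : ℕ, 3 ≤ n →
        (Subgroup.closure
          {g : Matrix.GeneralLinearGroup (Fin n) R |
            ∃ i j : Fin n, i ≠ j ∧ ∃ r : R,
              (g : Matrix (Fin n) (Fin n) R) =
                1 + Matrix.of (fun a b => if a = i ∧ b = j then r else 0)}).Normal := by
  intro R _ hPI n hn
  obtain ⟨d, -, c, hc, hx⟩ := hPI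
  rw [closure_eq]
  constructor
  intro e he g
  exact Pool.Agent.Helper58.EN.main (by simpa using hn) d c hc R hx g e he

end Pool.Agent.H155R3.EN
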