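import Mathlib
import Pool.Agent.HpBall.Sphere
import Pool.Agent.Helper843.Haar
import Pool.Agent.Helper82.OS.HausFin

set_option autoImplicit false
open MeasureTheory Metric Set
open scoped ENNReal NNReal

namespace Pool.Agent.H155R3.HB

open Pool.Agent.HpBall

/-- positivity of the Hausdorff measure of the sphere -/
theorem sphere_pos (m : ℕ) :
    0 < (Measure.hausdorffMeasure (m : ℝ) : Measure (EuclideanSpace ℝ (Fin (m + 1))))
      (Metric.sphere 0 1) := by
  set P : EuclideanSpace ℝ (Fin (m + 1)) → (Fin m → ℝ) := fun x i => x (Fin.castSucc i) with hP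
  have hL : LipschitzWith 1 P := by
    apply LipschitzWith.of_dist_le_mul
    intro x y
    rw [NNReal.coe_one, one_mul]
    refine (dist_pi_le_iff dist_nonneg).2 fun i => ?_
    have := PiLp.norm_apply_le (x - y) (Fin.castSucc i)
    simpa [dist_eq_norm, hP] using this
  have h1 := hL.hausdorffMeasure_image_le (d := m) (Nat.cast_nonneg m) (Metric.sphere 0 1)
  rw [ENNReal.coe_one, ENNReal.one_rpow, one_mul] at h1
  refine lt_of_lt_of_le ?_ h1
  have h2 : {p : Fin m → ℝ | ∑ i, p i ^ 2 < 1} ⊆ P '' Metric.sphere 0 1 := by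
    intro p hp
    have hp' : ∑ i, p i ^ 2 < 1 := hp
    refine ⟨WithLp.toLp 2 (Fin.snoc p (Real.sqrt (1 - ∑ i, p i ^ 2))), ?_, ?_⟩
    · rw [mem_sphere_zero_iff_norm, EuclideanSpace.norm_eq, Fin.sum_univ_castSucc]
      simp only [Real.norm_eq_abs, sq_abs]
      have e1 : ∀ i : Fin m, (Fin.snoc p (Real.sqrt (1 - ∑ i, p i ^ 2)) : Fin (m + 1) → ℝ)
          (Fin.castSucc i) = p i := fun i => Fin.snoc_castSucc _ _ _
      have e2 : (Fin.snoc p (Real.sqrt (1 - ∑ i, p i ^ 2)) : Fin (m + 1) → ℝ) (Fin.last m) =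
          Real.sqrt (1 - ∑ i, p i ^ 2) := Fin.snoc_last _ _
      rw [e2]
      simp_rw [e1]
      rw [Real.sq_sqrt (by linarith), add_sub_cancel, Real.sqrt_one]
    · funext i
      simp [hP]
  refine lt_of_lt_of_le ?_ (measure_mono h2)
  rw [Pool.Agent.Helper82.OS.B08_haus_cube]
  refine IsOpen.measure_pos _ ?_ ⟨0, ?_⟩
  · exact isOpen_lt (by fun_prop) continuous_const
  · simp

variable {n : ℕ}

lemma vol_map_real (U : E n ≃ₗᵢ[ℝ] E n) : (vol n).map U = vol n := by
  have h1 : (volume : Measure (E n)).map U = volume :=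
    (LinearIsometryEquiv.measurePreserving U).map_eq
  have h2 := Measure.isAddLeftInvariant_eq_smul (vol n) (volume : Measure (E n))
  rw [h2, Measure.map_smul, h1]

lemma gam_map_real (U : E n ≃ₗᵢ[ℝ] E n) : (gam n).map U = gam n := by
  have hU : Measurable U := U.continuous.measurable
  have hf : Measurable (fun z : E n => ENNReal.ofReal (Real.exp (-‖z‖ ^ 2))) := by fun_prop
  ext s hs
  rw [Measure.map_apply hU hs, gam, withDensity_apply _ (hU hs), withDensity_apply _ hs]
  conv_rhs => rw [← vol_map_real U]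
  rw [setLIntegral_map hs hf hU]
  simp

theorem sig_map_real (U : E n ≃ₗᵢ[ℝ] E n) : (sig n).map U = sig n := by
  have hU : Measurable U := U.continuous.measurable
  unfold sig
  rw [Measure.map_map hU measurable_proj]
  conv_rhs => rw [← gam_map_real U, Measure.map_map measurable_proj hU]
  congr 1
  ext1 z
  simp only [Function.comp_apply, LinearIsometryEquiv.norm_map]
  rw [show ((((‖z‖⁻¹ : ℝ)) : ℂ) • z) = (‖z‖⁻¹ : ℝ) • z from (RCLike.real_smul_eq_coe_smul _ _).symm,
    show ((((‖z‖⁻¹ : ℝ)) : ℂ) • U z) = (‖z‖⁻¹ : ℝ) • U z from (RCLike.real_smul_eq_coe_smul _ _).symm,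
    map_smul]

section gen

variable {F : Type*} [NormedAddCommGroup F] [InnerProductSpace ℝ F] [CompleteSpace F]
  [FiniteDimensional ℝ F] [MeasurableSpace F] [BorelSpace F]

open Pool.Agent.Helper843.Haar in
attribute [local instance] compactSpace_UG secondCountable_UG measUG borelUG in
open Pool.Agent.Helper843.Haar in
/-- two invariant finite measures carried by the unit sphere are proportional -/
theorem two_measures {m : ℕ} (hn : Module.finrank ℝ F = m + 1) (ν σ : Measure F)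
    [IsFiniteMeasure ν] [IsFiniteMeasure σ]
    (hν : ∀ U : F ≃ₗᵢ[ℝ] F, ν.map U = ν) (hσ : ∀ U : F ≃ₗᵢ[ℝ] F, σ.map U = σ)
    (hν1 : ∀ᵐ x ∂ν, ‖x‖ = 1) (hσ1 : ∀ᵐ x ∂σ, ‖x‖ = 1) (x0 : F) (hx0 : ‖x0‖ = 1)
    (A : Set F) (hA : MeasurableSet A) : ν A * σ univ = σ A * ν univ := by
  set T : ℝ≥0∞ := (Measure.haar : Measure (unitary (F →L[ℝ] F))) univ with hT
  have hT0 : T ≠ 0 :=
    (isOpen_univ.measure_pos (Measure.haar : Measure (unitary (F →L[ℝ] F))) univ_nonempty).ne'
  have hTt : T ≠ ⊤ := measure_ne_top (Measure.haar : Measure (unitary (F →L[ℝ] F))) _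
  have hm : Measurable (A.indicator (fun _ => (1 : ℝ≥0∞))) := measurable_const.indicator hA
  have key : ∀ μ : Measure F, IsFiniteMeasure μ → (∀ U : F ≃ₗᵢ[ℝ] F, μ.map U = μ) →
      (∀ᵐ x ∂μ, ‖x‖ = 1) →
      (∫⁻ Q, A.indicator (fun _ => (1 : ℝ≥0∞)) (act Q x0)
        ∂(Measure.haar : Measure (unitary (F →L[ℝ] F)))) * μ univ = μ A * T := by
    intro μ hμf hμ hμ1
    have h := haar_avg μ _ hm x0 ?_ ?_
    · rwa [lintegral_indicator_const hA, one_mul] at h
    · intro Q
      have hU := hμ (Unitary.linearIsometryEquiv (Q⁻¹ : unitary (F →L[ℝ] F)))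
      conv_rhs => rw [← hU]
      rw [lintegral_map hm (LinearIsometryEquiv.continuous _).measurable]
      rfl
    · filter_upwards [hμ1] with x hx
      exact haar_const hn _ x x0 hx hx0
  have h1 := key ν inferInstance hν hν1
  have h2 := key σ inferInstance hσ hσ1
  set a := ∫⁻ Q, A.indicator (fun _ => (1 : ℝ≥0∞)) (act Q x0)
        ∂(Measure.haar : Measure (unitary (F →L[ℝ] F)))
  have h3 : (ν A * σ univ) * T = (σ A * ν univ) * T := by
    calc (ν A * σ univ) * T = (ν A * T) * σ univ := by ring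
      _ = (a * ν univ) * σ univ := by rw [← h1]
      _ = (a * σ univ) * ν univ := by ring
      _ = (σ A * T) * ν univ := by rw [h2]
      _ = _ := by ring
  exact (ENNReal.mul_left_inj hT0 hTt).1 h3

end gen

theorem haus_eq_sig (n : ℕ) (hn : 1 ≤ n) : ∃ c : ℝ≥0∞, c ≠ 0 ∧ c ≠ ⊤ ∧
    (Measure.hausdorffMeasure ((2 * n - 1 : ℕ) : ℝ) : Measure (E n)).restrict
      (Metric.sphere 0 1) = c • sig n := by
  obtain ⟨m, hm⟩ : ∃ m, 2 * n - 1 = m := ⟨_, rfl⟩
  have hm2 : 2 * n = m + 1 := by omega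
  rw [hm]
  have hfr : Module.finrank ℝ (E n) = m + 1 := by
    rw [finrank_real_of_complex, finrank_euclideanSpace_fin, hm2]
  set ψ : E n ≃ₗᵢ[ℝ] EuclideanSpace ℝ (Fin (m + 1)) :=
    ((stdOrthonormalBasis ℝ (E n)).reindex (finCongr hfr)).repr with hψ
  have himg : ψ.toIsometryEquiv '' (Metric.sphere (0 : E n) 1) = Metric.sphere 0 1 := by
    rw [IsometryEquiv.image_sphere]
    simp
  have hS : (Measure.hausdorffMeasure (m : ℝ) : Measure (E n)) (Metric.sphere 0 1) =
      (Measure.hausdorffMeasure (m : ℝ) : Measure (EuclideanSpace ℝ (Fin (m + 1))))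
        (Metric.sphere 0 1) := by
    rw [← himg, IsometryEquiv.hausdorffMeasure_image]
  have hpos := sphere_pos m
  have hfin := Pool.Agent.Helper82.OS.B08_sphere_finite m
  rw [← hS] at hpos hfin
  have hcl : MeasurableSet (Metric.sphere (0 : E n) 1) := Metric.isClosed_sphere.measurableSet
  set ν : Measure (E n) := (Measure.hausdorffMeasure (m : ℝ) : Measure (E n)).restrict
    (Metric.sphere 0 1) with hν
  have hνu : ν Set.univ = (Measure.hausdorffMeasure (m : ℝ) : Measure (E n)) (Metric.sphere 0 1) :=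
    Measure.restrict_apply_univ _
  have hνf : IsFiniteMeasure ν := ⟨by rw [hνu]; exact lt_top_iff_ne_top.2 hfin⟩
  have hσ0 : sig n Set.univ ≠ 0 := sig_univ_pos.ne'
  have hσf : sig n Set.univ ≠ ⊤ := measure_ne_top _ _
  obtain ⟨x0, hx0⟩ : ∃ x0 : E n, ‖x0‖ = 1 := by
    refine ⟨EuclideanSpace.single ⟨0, hn⟩ 1, by simp⟩
  refine ⟨ν univ / sig n univ, ?_, ?_, ?_⟩
  · rw [hνu]
    exact (ENNReal.div_pos hpos.ne' hσf).ne'
  · rw [hνu]
    exact ENNReal.div_ne_top hfin hσ0
  have hνinv : ∀ U : E n ≃ₗᵢ[ℝ] E n, ν.map U = ν := by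
    intro U
    have hmp : MeasurePreserving (U : E n → E n)
        (Measure.hausdorffMeasure (m : ℝ)) (Measure.hausdorffMeasure (m : ℝ)) :=
      U.toIsometryEquiv.measurePreserving_hausdorffMeasure m
    have hpre : (U : E n → E n) ⁻¹' (Metric.sphere 0 1) = Metric.sphere 0 1 := by
      ext x
      simp
    have := (hmp.restrict_preimage hcl).map_eq
    rw [hpre] at this
    exact this
  have hν1 : ∀ᵐ x ∂ν, ‖x‖ = 1 := by
    rw [hν, ae_restrict_iff' hcl]
    exact Filter.Eventually.of_forall fun x hx => by simpa using hx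
  ext A hA
  have h4 := two_measures hfr ν (sig n) hνinv sig_map_real hν1 (sig_ae_norm hn) x0 hx0 A hA
  rw [Measure.smul_apply, smul_eq_mul]
  rw [← ENNReal.mul_left_inj hσ0 hσf, h4]
  rw [mul_comm (ν univ / sig n univ), mul_assoc, ENNReal.div_mul_cancel hσ0 hσf]

end Pool.Agent.H155R3.HB
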