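import Mathlib
import Pool.Agent.H155R3.HB.Haus
import Pool.Agent.HpBall2.MainC

set_option autoImplicit false
open MeasureTheory Metric Set
open scoped ENNReal NNReal

namespace Pool.Agent.H155R3.HB

open Pool.Agent.HpBall Pool.Agent.HpBall2

/-- the p-th power of the Hardy quasi-norm formed with the Hausdorff measure -/
theorem norm_transfer {F : Type} [NormedAddCommGroup F] [InnerProductSpace ℂ F]
    [MeasurableSpace F] [BorelSpace F] (n : ℕ)
    (φ : F ≃ₗᵢ[ℂ] E n) (p : ℝ) (hp : 0 < p) (c : ℝ≥0∞)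
    (hc : (Measure.hausdorffMeasure ((2 * n - 1 : ℕ) : ℝ) : Measure (E n)).restrict
      (Metric.sphere 0 1) = c • sig n) (g : F → ℂ) :
    (⨆ r ∈ Set.Ico (0 : ℝ) 1, ∫⁻ ζ in Metric.sphere (0 : F) 1, ‖g ((r : ℂ) • ζ)‖ₑ ^ p
      ∂(MeasureTheory.Measure.hausdorffMeasure ((2 * n - 1 : ℕ) : ℝ) : Measure F)) =
    c * NF n p (fun z => g (φ.symm z)) := by
  unfold NF
  rw [ENNReal.mul_iSup]
  refine iSup_congr fun r => ?_
  rw [ENNReal.mul_iSup]
  refine iSup_congr fun hr => ?_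
  have hmp : MeasurePreserving (φ : F → E n)
      (Measure.hausdorffMeasure ((2 * n - 1 : ℕ) : ℝ))
      (Measure.hausdorffMeasure ((2 * n - 1 : ℕ) : ℝ)) :=
    φ.toIsometryEquiv.measurePreserving_hausdorffMeasure _
  have hemb : MeasurableEmbedding (φ : F → E n) := φ.toHomeomorph.measurableEmbedding
  have h1 := hmp.setLIntegral_comp_preimage_emb hemb
    (fun b => ‖g (φ.symm ((r : ℂ) • b))‖ₑ ^ p) (Metric.sphere 0 1)
  have hpre : (φ : F → E n) ⁻¹' (Metric.sphere 0 1) = Metric.sphere 0 1 := by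
    ext x
    simp
  rw [hpre] at h1
  simp only [map_smul, LinearIsometryEquiv.symm_apply_apply] at h1
  rw [h1, hc, lintegral_smul_measure, smul_eq_mul]
  congr 1
  refine lintegral_congr fun ξ => ?_
  show ‖g ((r : ℂ) • φ.symm ξ)‖ₑ ^ p = ENNReal.ofReal (‖g (φ.symm ((r : ℂ) • ξ))‖ ^ p)
  rw [map_smul, ← ofReal_norm, ENNReal.ofReal_rpow_of_nonneg (norm_nonneg _) hp.le]

theorem main (F : Type) [NormedAddCommGroup F] [InnerProductSpace ℂ F] [FiniteDimensional ℂ F]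
      [MeasurableSpace F] [BorelSpace F]
      (hF : 2 ≤ Module.finrank ℂ F) (p : ℝ) (hp : 0 < p) (hp1 : p < 1) :
        ∃ e : ℕ → (F → ℂ),
          (∀ k, DifferentiableOn ℂ (e k) (Metric.ball (0 : F) 1) ∧
            (⨆ r ∈ Set.Ico (0 : ℝ) 1,
              ∫⁻ ζ in Metric.sphere (0 : F) 1, ‖e k ((r : ℂ) • ζ)‖ₑ ^ p
                ∂(MeasureTheory.Measure.hausdorffMeasure
                    ((2 * Module.finrank ℂ F - 1 : ℕ) : ℝ) : MeasureTheory.Measure F)) < ⊤) ∧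
          ∀ f : F → ℂ, DifferentiableOn ℂ f (Metric.ball (0 : F) 1) →
            (⨆ r ∈ Set.Ico (0 : ℝ) 1,
              ∫⁻ ζ in Metric.sphere (0 : F) 1, ‖f ((r : ℂ) • ζ)‖ₑ ^ p
                ∂(MeasureTheory.Measure.hausdorffMeasure
                    ((2 * Module.finrank ℂ F - 1 : ℕ) : ℝ) : MeasureTheory.Measure F)) < ⊤ →
            ∃! a : ℕ → ℂ, ∀ ε : ENNReal, 0 < ε → ∃ G₀ : Finset ℕ, ∀ G : Finset ℕ, G₀ ⊆ G →
              (⨆ r ∈ Set.Ico (0 : ℝ) 1,
                ∫⁻ ζ in Metric.sphere (0 : F) 1,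
                  ‖f ((r : ℂ) • ζ) - ∑ k ∈ G, a k * e k ((r : ℂ) • ζ)‖ₑ ^ p
                  ∂(MeasureTheory.Measure.hausdorffMeasure
                    ((2 * Module.finrank ℂ F - 1 : ℕ) : ℝ) : MeasureTheory.Measure F)) < ε := by
  set n := Module.finrank ℂ F with hn
  have hn1 : 1 ≤ n := by omega
  let φ : F ≃ₗᵢ[ℂ] E n := (stdOrthonormalBasis ℂ F).repr
  obtain ⟨c, hc0, hct, hc⟩ := haus_eq_sig n hn1
  have hNT := fun g : F → ℂ => norm_transfer n φ p hp c hc g
  obtain ⟨e', hd, h2, -, hb⟩ := main_basis n hn1 p hp hp1.le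
  have hφd : Differentiable ℂ (φ : F → E n) := φ.toContinuousLinearEquiv.differentiable
  have hφsd : Differentiable ℂ (φ.symm : E n → F) := φ.symm.toContinuousLinearEquiv.differentiable
  refine ⟨fun k z => e' k (φ z), ?_, ?_⟩
  · intro k
    refine ⟨?_, ?_⟩
    · refine (hd k).comp hφd.differentiableOn ?_
      intro x hx
      simpa using hx
    · rw [hNT (fun z => e' k (φ z))]
      simp only [LinearIsometryEquiv.apply_symm_apply]
      refine ENNReal.mul_lt_top (lt_top_iff_ne_top.2 hct) ?_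
      refine lt_of_le_of_lt (b := sig n Set.univ + 1) ?_ (ENNReal.add_lt_top.2
        ⟨measure_lt_top _ _, ENNReal.one_lt_top⟩)
      unfold NF
      refine iSup₂_le fun r hr => ?_
      calc ∫⁻ ξ, ENNReal.ofReal (‖e' k ((r : ℂ) • ξ)‖ ^ p) ∂(sig n)
          ≤ ∫⁻ ξ, (1 + ENNReal.ofReal (‖e' k ((r : ℂ) • ξ)‖ ^ (2 : ℝ))) ∂(sig n) := by
            refine lintegral_mono fun ξ => ?_
            have h0 : 0 ≤ ‖e' k ((r : ℂ) • ξ)‖ := norm_nonneg _
            have : ‖e' k ((r : ℂ) • ξ)‖ ^ p ≤ 1 + ‖e' k ((r : ℂ) • ξ)‖ ^ (2 : ℝ) := by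
              rcases le_total (‖e' k ((r : ℂ) • ξ)‖) 1 with h | h
              · have h3 := Real.rpow_le_one h0 h hp.le
                have h4 : 0 ≤ ‖e' k ((r : ℂ) • ξ)‖ ^ (2 : ℝ) := Real.rpow_nonneg h0 _
                linarith
              · have h3 := Real.rpow_le_rpow_of_exponent_le h (show p ≤ 2 by linarith)
                linarith
            calc ENNReal.ofReal (‖e' k ((r : ℂ) • ξ)‖ ^ p)
                ≤ ENNReal.ofReal (1 + ‖e' k ((r : ℂ) • ξ)‖ ^ (2 : ℝ)) := ENNReal.ofReal_le_ofReal this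
              _ = 1 + ENNReal.ofReal (‖e' k ((r : ℂ) • ξ)‖ ^ (2 : ℝ)) := by
                rw [ENNReal.ofReal_add zero_le_one (Real.rpow_nonneg h0 _), ENNReal.ofReal_one]
        _ = sig n Set.univ + ∫⁻ ξ, ENNReal.ofReal (‖e' k ((r : ℂ) • ξ)‖ ^ (2 : ℝ)) ∂(sig n) := by
            rw [lintegral_add_left measurable_const, lintegral_const, one_mul]
        _ ≤ sig n Set.univ + 1 := by
            gcongr
            exact h2 k r hr.1 hr.2
  · intro f hf hfN
    rw [hNT f] at hfN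
    have hfs : DifferentiableOn ℂ (fun z => f (φ.symm z)) (Metric.ball 0 1) := by
      refine hf.comp hφsd.differentiableOn ?_
      intro x hx
      simpa using hx
    have hfN' : NF n p (fun z => f (φ.symm z)) ≠ ⊤ := by
      intro h
      rw [h, ENNReal.mul_top hc0] at hfN
      exact lt_irrefl _ hfN
    have key : ∀ (a : ℕ → ℂ) (G : Finset ℕ), (⨆ r ∈ Set.Ico (0 : ℝ) 1,
                ∫⁻ ζ in Metric.sphere (0 : F) 1,
                  ‖f ((r : ℂ) • ζ) - ∑ k ∈ G, a k * e' k (φ ((r : ℂ) • ζ))‖ₑ ^ p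
                  ∂(MeasureTheory.Measure.hausdorffMeasure
                    ((2 * n - 1 : ℕ) : ℝ) : MeasureTheory.Measure F)) =
        c * NF n p (fun z => f (φ.symm z) - ∑ k ∈ G, a k * e' k z) := by
      intro a G
      rw [hNT (fun z => f z - ∑ k ∈ G, a k * e' k (φ z))]
      simp only [LinearIsometryEquiv.apply_symm_apply]
    have key2 : ∀ a : ℕ → ℂ, (∀ ε : ENNReal, 0 < ε → ∃ G₀ : Finset ℕ, ∀ G : Finset ℕ, G₀ ⊆ G →
        (⨆ r ∈ Set.Ico (0 : ℝ) 1,
                ∫⁻ ζ in Metric.sphere (0 : F) 1,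
                  ‖f ((r : ℂ) • ζ) - ∑ k ∈ G, a k * e' k (φ ((r : ℂ) • ζ))‖ₑ ^ p
                  ∂(MeasureTheory.Measure.hausdorffMeasure
                    ((2 * n - 1 : ℕ) : ℝ) : MeasureTheory.Measure F)) < ε) ↔
        ∀ ε : ℝ≥0∞, 0 < ε → ∃ F : Finset ℕ, ∀ G : Finset ℕ, F ⊆ G →
          NF n p (fun z => f (φ.symm z) - ∑ k ∈ G, a k * e' k z) < ε := by
      intro a
      constructor
      · intro h ε hε
        obtain ⟨G₀, hG₀⟩ := h (c * ε) (ENNReal.mul_pos hc0 hε.ne')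
        refine ⟨G₀, fun G hG => ?_⟩
        have := hG₀ G hG
        rw [key] at this
        exact (ENNReal.mul_lt_mul_iff_right hc0 hct).1 this
      · intro h ε hε
        obtain ⟨G₀, hG₀⟩ := h (ε / c) (ENNReal.div_pos hε.ne' hct)
        refine ⟨G₀, fun G hG => ?_⟩
        rw [key]
        have := hG₀ G hG
        rw [mul_comm]
        exact (ENNReal.lt_div_iff_mul_lt (Or.inl hc0) (Or.inl hct)).1 this
    obtain ⟨a, ha, hau⟩ := hb _ hfs hfN'
    refine ⟨a, (key2 a).2 ha, ?_⟩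
    intro a' ha'
    exact hau a' ((key2 a').1 ha')

end Pool.Agent.H155R3.HB
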